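import Pool.Agent.TH168.BN.HypModel
import Pool.Agent.W518.EG.TGen
import Pool.Agent.W518.EG.TRR

/-!
# The genus of the hyperelliptic curves `y ^ 2 = x ^ (2 n) + 1`
-/

set_option autoImplicit false
set_option linter.unusedSectionVars false

open scoped WithZero Matrix Polynomial IntermediateField
open WithZero
open Pool.Agent.Helper395.CS hiding genus
open Pool.Agent.Helper395.BC
open Pool.Agent.W518.SMR (lpole lpole_val two_le_h0_lpole)
open Pool.Agent.W518.PC (lpow)

namespace Pool.Agent.TH168.BN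

variable {K : Type} [Field K] [Algebra ℂ K] {x y : K} {n : ℕ} {ι : K ≃ₐ[ℂ] K}

theorem val_y_inf' (H : Hyp x y (hp n) ι) {v : Point K} (hv : 1 < v.val x) :
    v.val y = v.val x ^ n := by
  have h1 : v.val (y ^ 2) = v.val x ^ (2 * n) := by
    rw [H.eq, val_aeval_inf hv (hp n) H.f_ne, hp_natDegree]
  rw [map_pow] at h1
  have h2 : v.val x ^ (2 * n) = (v.val x ^ n) ^ 2 := by rw [← pow_mul, mul_comm]
  rw [h2] at h1
  exact (pow_left_inj₀ zero_le zero_le two_ne_zero).1 h1

/-- the map `(p, q) ↦ p(x) + q(x) y` -/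
noncomputable def pqMap (x y : K) (a b : ℕ) :
    (Polynomial.degreeLT ℂ a × Polynomial.degreeLT ℂ b) →ₗ[ℂ] K where
  toFun w := Polynomial.aeval x (w.1 : ℂ[X]) + Polynomial.aeval x (w.2 : ℂ[X]) * y
  map_add' u w := by
    simp only [Prod.fst_add, Prod.snd_add, Submodule.coe_add, map_add]
    ring
  map_smul' c w := by
    simp only [Prod.smul_fst, Prod.smul_snd, Submodule.coe_smul, map_smul, RingHom.id_apply,
      smul_add, smul_mul_assoc]

theorem pqMap_injective (H : Hyp x y (hp n) ι) (a b : ℕ) :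
    Function.Injective (pqMap x y a b) := by
  rw [injective_iff_map_eq_zero]
  rintro ⟨⟨p, hp'⟩, ⟨q, hq⟩⟩ h
  have h1 : Polynomial.aeval x p + Polynomial.aeval x q * y = 0 := h
  obtain ⟨h2, h3⟩ := H.coeff_zero (mem_adj p) (mem_adj q) h1
  have hp0 : p = 0 := by
    by_contra h4
    exact aeval_ne_zero H.trans h4 h2
  have hq0 : q = 0 := by
    by_contra h4
    exact aeval_ne_zero H.trans h4 h3
  subst hp0 hq0
  rfl

theorem mem_bound_iff (H : Hyp x y (hp n) ι) (t : ℕ) (z : K) :
    (∀ v : Point K, v.val z ≤ max 1 (v.val x) ^ t) ↔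
      z ∈ LinearMap.range (pqMap x y (t + 1) (t + 1 - n)) := by
  constructor
  · intro hz
    obtain ⟨p, q, rfl⟩ := H.mem_ring (z := z) (fun v hv => by
      have := hz v
      rwa [max_eq_left hv, one_pow] at this)
    obtain ⟨v, hv⟩ := exists_inf H
    have h1 := H.parts_le rfl (mem_adj p) (mem_adj q) v (C := v.val x ^ t) (by
      have := hz v
      rwa [max_eq_right hv.le] at this) (by
      have h2 : 1 < (v.comap ι).val x := by rw [H.comap_x]; exact hv
      have := hz (v.comap ι)
      rwa [max_eq_right h2.le, H.comap_x] at this)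
    refine ⟨⟨⟨p, ?_⟩, ⟨q, ?_⟩⟩, rfl⟩
    · rw [Polynomial.mem_degreeLT]
      rcases eq_or_ne p 0 with rfl | hp0
      · rw [Polynomial.degree_zero]; exact WithBot.bot_lt_coe _
      have h4 := h1.1
      rw [val_aeval_inf hv p hp0, pow_le_pow_iff_right₀ hv] at h4
      rw [Polynomial.degree_eq_natDegree hp0]
      exact_mod_cast (by omega : p.natDegree < t + 1)
    · rw [Polynomial.mem_degreeLT]
      rcases eq_or_ne q 0 with rfl | hq0
      · rw [Polynomial.degree_zero]; exact WithBot.bot_lt_coe _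
      have h4 := h1.2
      rw [map_mul, val_aeval_inf hv q hq0, val_y_inf' H hv, ← pow_add,
        pow_le_pow_iff_right₀ hv] at h4
      rw [Polynomial.degree_eq_natDegree hq0]
      exact_mod_cast (by omega : q.natDegree < t + 1 - n)
  · rintro ⟨⟨⟨p, hp'⟩, ⟨q, hq⟩⟩, rfl⟩ v
    change v.val (Polynomial.aeval x p + Polynomial.aeval x q * y) ≤ _
    rw [Polynomial.mem_degreeLT] at hp' hq
    by_cases hv : v.val x ≤ 1
    · rw [max_eq_left hv, one_pow]
      refine Valuation.map_add_le _ (aeval_le hv p) ?_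
      rw [map_mul]
      exact mul_le_one' (aeval_le hv q) (H.val_y_le hv)
    · have hv' := not_le.1 hv
      rw [max_eq_right hv'.le]
      refine Valuation.map_add_le _ ?_ ?_
      · rcases eq_or_ne p 0 with rfl | hp0
        · simp
        rw [val_aeval_inf hv' p hp0, pow_le_pow_iff_right₀ hv']
        rw [Polynomial.degree_eq_natDegree hp0] at hp'
        have : p.natDegree < t + 1 := by exact_mod_cast hp'
        omega
      · rcases eq_or_ne q 0 with rfl | hq0
        · simp
        rw [map_mul, val_aeval_inf hv' q hq0, val_y_inf' H hv', ← pow_add,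
          pow_le_pow_iff_right₀ hv']
        rw [Polynomial.degree_eq_natDegree hq0] at hq
        have : q.natDegree < t + 1 - n := by exact_mod_cast hq
        omega

/-- the line bundle of the pole divisor of `x` -/
noncomputable def xpole (H : Hyp x y (hp n) ι) : LineBundle K :=
  lpole H.curve (Units.mk0 x H.x_ne)

theorem xpole_degree (H : Hyp x y (hp n) ι) : (xpole H).degree = 2 := by
  rw [xpole, Pool.Agent.W518.EG.lpole_degree]
  exact H.degP_x

theorem H0_xpole_pow (H : Hyp x y (hp n) ι) (t : ℕ) :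
    H0 (lpow (xpole H) t) = LinearMap.range (pqMap x y (t + 1) (t + 1 - n)) := by
  ext z
  rw [← mem_bound_iff H t z]
  refine forall_congr' fun v => ?_
  change v.val z ≤ v.val ((((xpole H).frame v) ^ (t : ℤ) : Kˣ) : K) ↔ _
  have h1 : v.val ((((xpole H).frame v) ^ (t : ℤ) : Kˣ) : K) = max 1 (v.val x) ^ t := by
    rw [zpow_natCast, Units.val_pow_eq_pow_val, map_pow]
    congr 1
    exact lpole_val H.curve (Units.mk0 x H.x_ne) v
  rw [h1]

theorem finrank_H0_xpole_pow (H : Hyp x y (hp n) ι) (t : ℕ) :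
    FiniteDimensional ℂ (H0 (lpow (xpole H) t)) ∧
    Module.finrank ℂ (H0 (lpow (xpole H) t)) = (t + 1) + (t + 1 - n) := by
  rw [H0_xpole_pow H t]
  have e1 : ∀ m : ℕ, Module.finrank ℂ (Polynomial.degreeLT ℂ m) = m := fun m => by
    rw [(Polynomial.degreeLTEquiv ℂ m).finrank_eq, Module.finrank_fin_fun]
  have f1 : ∀ m : ℕ, Module.Finite ℂ (Polynomial.degreeLT ℂ m) := fun m =>
    Module.Finite.equiv (Polynomial.degreeLTEquiv ℂ m).symm
  have i1 := f1 (t + 1)
  have i2 := f1 (t + 1 - n)
  refine ⟨inferInstance, ?_⟩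
  rw [LinearMap.finrank_range_of_inj (pqMap_injective H _ _), Module.finrank_prod, e1, e1]

/-- the genus of `y² = x^(2n) + 1` is `n - 1` -/
theorem genus_hyp (H : Hyp x y (hp n) ι) (hn : 2 ≤ n) : genus K = n - 1 := by
  refine Pool.Agent.W518.EG.s_GEN K H.curve 2 (n - 1) n (xpole H) (by norm_num) (by omega)
    (xpole_degree H) fun t ht => ?_
  obtain ⟨h1, h2⟩ := finrank_H0_xpole_pow H t
  refine ⟨h1, ?_⟩
  rw [h2]
  push_cast
  omega

/-- For every `g ≥ 1` there is a curve of genus `g` with a line bundle of degree two with two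
sections. -/
theorem exists_hyperelliptic (g : ℕ) (hg : 1 ≤ g) :
    ∃ (K : Type) (_ : Field K) (_ : Algebra ℂ K), IsCurve K ∧ genus K = g ∧
      ∃ A : LineBundle K, A.degree = 2 ∧ 2 ≤ Module.finrank ℂ (H0 A) := by
  have : NeZero (g + 1) := ⟨by omega⟩
  have hG : genus (HK (g + 1)) = g := by
    rw [genus_hyp (hyp (g + 1)) (by omega)]
    omega
  refine ⟨HK (g + 1), inferInstance, inferInstance, HK_isCurve (g + 1), hG,
    xpole (hyp (g + 1)), xpole_degree _, ?_⟩
  exact two_le_h0_lpole (hyp (g + 1)).curve (by omega) _ fun c hc => (hyp (g + 1)).trans (by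
    change hx (g + 1) = _ at hc
    rw [hc]
    exact isAlgebraic_algebraMap c)

end Pool.Agent.TH168.BN
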