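import Pool.Agent.TH168.BN.Loci

/-!
# Containments of Brill-Noether loci of small degree
-/

set_option autoImplicit false
set_option linter.unusedSectionVars false

open scoped WithZero Matrix
open WithZero IntermediateField Algebra
open Pool.Agent.Helper395.CS hiding genus
open Pool.Agent.Helper395.BC

namespace Pool.Agent.TH168.BN

/-- `M^r_{g,d} ⊆ M^s_{g,d-2(r-s)}` for large `g`, or for `d = 2 r`. -/
theorem contained (r s d g : ℕ) (hs : 1 ≤ s) (hsr : s ≤ r) (hd : 2 * r ≤ d)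
    (hg : (d - 1) ^ 2 < g ∨ (d = 2 * r ∧ 2 * r + 1 ≤ g)) :
    Contained g r d s ((d : ℤ) - 2 * (r - s)) := by
  intro K _ _ ⟨hK, hgK, hL⟩
  have hg0 : genus K ≠ 0 := by
    rcases hg with h | h <;> omega
  refine ⟨hK, hgK, ?_⟩
  rcases hg with h | ⟨h1, h2⟩
  · obtain ⟨k, rfl⟩ := Nat.exists_eq_add_of_le hsr
    have h3 := HasSeries.drops hK hg0 k (s := s) (d := d) (by exact_mod_cast hd) hs (by
      rw [hgK]
      obtain ⟨m, rfl⟩ : ∃ m, d = m + 1 := ⟨d - 1, by omega⟩
      rw [Nat.add_sub_cancel] at h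
      push_cast
      rw [add_sub_cancel_right]
      exact_mod_cast h) hL
    have e : (d : ℤ) - 2 * (((s + k : ℕ) : ℤ) - s) = d - 2 * k := by push_cast; ring
    rw [e]
    exact h3
  · subst h1
    have h3 : HasSeries K r (2 * (r : ℤ)) := by
      have := hL
      push_cast at this
      exact this
    have h4 := HasSeries.clifford hK hg0 (by omega) (by omega) h3
    have h5 := h4.pow hK hg0 s
    have e : ((2 * r : ℕ) : ℤ) - 2 * ((r : ℤ) - s) = s * 2 := by push_cast; ring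
    rw [e]
    exact h5

/-- the loci are not empty -/
theorem nonempty (g r d : ℕ) (hg : 1 ≤ g) (hd : 2 * r ≤ d) :
    ∃ (K : Type) (_ : Field K) (_ : Algebra ℂ K), InLocus g r d K := by
  obtain ⟨K, i1, i2, hK, hgK, A, hA, hA2⟩ := exists_hyperelliptic g hg
  refine ⟨K, i1, i2, hK, hgK, ?_⟩
  have hg0 : genus K ≠ 0 := by omega
  have h1 : HasSeries K 1 2 := ⟨A, hA, hA2⟩
  have h2 := (h1.pow hK hg0 r).add hK hg0 (d - 2 * r)
  have e : (r : ℤ) * 2 + ((d - 2 * r : ℕ) : ℤ) = d := by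
    rw [Nat.cast_sub hd]; push_cast; ring
  rwa [e] at h2

theorem rho_neg {g r : ℕ} {d : ℤ} (hr : 2 ≤ r) (h1 : d < g) (h2 : 3 * d < 2 * g + 6) :
    rho g r d < 0 := by
  unfold rho
  have a1 : (2 : ℤ) ≤ r := by exact_mod_cast hr
  have a2 : 0 ≤ (r - 2 : ℤ) * (g - d) := mul_nonneg (by linarith) (by linarith)
  nlinarith

theorem rho_neg' {g r : ℕ} (hr : 1 ≤ r) (h : r + 1 < g) : rho g r (2 * r) < 0 := by
  unfold rho
  have a1 : (1 : ℤ) ≤ r := by exact_mod_cast hr
  have a5 : (r : ℤ) + 2 ≤ g := by exact_mod_cast h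
  nlinarith

end Pool.Agent.TH168.BN
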