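import Pool.Agent.TH168.BN.GenusBound

/-!
# On a curve of large genus a linear series of small degree is not very ample
-/

set_option autoImplicit false
set_option linter.unusedSectionVars false

open scoped WithZero Matrix
open WithZero IntermediateField Algebra
open Pool.Agent.Helper395.CS hiding genus
open Pool.Agent.Helper395.BC
open Pool.Agent.W525.BA (h0_lsub val_lsub_lt ldegree_lt)
open Pool.Agent.W518.SMR (lpole lpole_val two_le_h0_lpole)
open Pool.Agent.W518.PC (lpow)

namespace Pool.Agent.TH168.BN

variable {K : Type} [Field K] [Algebra ℂ K]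

theorem degP_div_le (hK : IsCurve K) {L : LineBundle K} {s₀ s₁ : K} (h₀ : s₀ ∈ H0 L)
    (h₁ : s₁ ∈ H0 L) (hs₀ : s₀ ≠ 0) (hs₁ : s₁ ≠ 0) : degP (s₁ / s₀) ≤ L.degree := by
  have hd : s₁ / s₀ ≠ 0 := div_ne_zero hs₁ hs₀
  have h1 : degP (s₁ / s₀) = (lpole hK (Units.mk0 (s₁ / s₀) hd)).degree := by
    rw [Pool.Agent.W518.EG.lpole_degree]
    rfl
  have h2 : (lmul L (lprin hK (Units.mk0 s₀ hs₀)⁻¹)).degree = L.degree := by
    rw [lmul_degree, lprin_degree, add_zero]
  rw [h1, ← h2]
  apply ldegree_le hK
  intro v s hs
  rw [mem_lmul]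
  have hs' : v.val s ≤ v.val ((lpole hK (Units.mk0 (s₁ / s₀) hd)).frame v : K) := hs
  refine hs'.trans ?_
  rw [lpole_val]
  have hp : 0 < v.val s₀ := zero_lt_iff.2 (v.val_ne_zero hs₀)
  have e1 : v.val (((lprin hK (Units.mk0 s₀ hs₀)⁻¹).frame v : Kˣ) : K) = (v.val s₀)⁻¹ := by
    change v.val (((Units.mk0 s₀ hs₀)⁻¹ : Kˣ) : K) = _
    rw [Units.val_inv_eq_inv_val, map_inv₀]
    rfl
  rw [e1, ← div_eq_mul_inv]
  refine max_le ?_ ?_
  · rw [one_le_div₀ hp]
    exact h₀ v
  · change v.val (s₁ / s₀) ≤ _
    rw [map_div₀]
    exact div_le_div_of_nonneg_right (h₁ v) hp.le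

/-- the ratios of sections -/
def ratios (L : LineBundle K) (s₀ : K) : Set K := {z | ∃ s ∈ H0 L, z = s / s₀}

theorem fg_ratios (hK : IsCurve K) (hg : genus K ≠ 0) (L : LineBundle K) (s₀ : K) :
    (IntermediateField.adjoin ℂ (ratios L s₀)).FG := by
  have hfin := H0_finite hK hg L
  obtain ⟨S, hS⟩ := (Module.finite_def.1 hfin : (⊤ : Submodule ℂ (H0 L)).FG)
  classical
  refine ⟨S.image fun s : H0 L => (s : K) / s₀, ?_⟩
  apply le_antisymm
  · apply IntermediateField.adjoin.mono
    intro z hz
    rw [Finset.coe_image] at hz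
    obtain ⟨s, -, rfl⟩ := hz
    exact ⟨s, s.2, rfl⟩
  · rw [IntermediateField.adjoin_le_iff]
    rintro z ⟨s, hs, rfl⟩
    have h1 : (⟨s, hs⟩ : H0 L) ∈ Submodule.span ℂ (S : Set (H0 L)) := by rw [hS]; trivial
    have key : ∀ x : H0 L, x ∈ Submodule.span ℂ (S : Set (H0 L)) → (x : K) / s₀ ∈
        IntermediateField.adjoin ℂ ((S.image fun s : H0 L => (s : K) / s₀ : Finset K) : Set K) := by
      intro x hx
      induction hx using Submodule.span_induction with
      | mem x hx =>
        apply IntermediateField.subset_adjoin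
        rw [Finset.coe_image]
        exact ⟨x, hx, rfl⟩
      | zero =>
        rw [Submodule.coe_zero, zero_div]
        exact zero_mem _
      | add x y _ _ hx hy =>
        rw [Submodule.coe_add, add_div]
        exact add_mem hx hy
      | smul c x _ hx =>
        rw [Submodule.coe_smul, smul_div_assoc]
        exact IntermediateField.smul_mem _ hx
    exact key _ h1

/-- on a curve of large genus two points fail to impose independent conditions on a linear
series of small degree -/
theorem drop (hK : IsCurve K) (hg : genus K ≠ 0) (L : LineBundle K)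
    (h2 : 2 ≤ Module.finrank ℂ (H0 L)) (hbig : (L.degree - 1) ^ 2 < genus K) :
    ∃ v w : Point K, Module.finrank ℂ (H0 L) ≤ Module.finrank ℂ (H0 (lsub (lsub L v) w)) + 1 := by
  classical
  by_contra hcon
  push Not at hcon
  have hfin := H0_finite hK hg L
  -- base point free
  have hbpf : ∀ v : Point K, Module.finrank ℂ (H0 (lsub L v)) < Module.finrank ℂ (H0 L) := by
    intro v
    have h1 := hcon v v
    have h3 := h0_lsub hK hg (lsub L v) v
    omega
  have hgen := fun v : Point K => exists_generator L v (hbpf v)
  -- two independent sections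
  obtain ⟨s₀, hs₀, hs₀0⟩ : ∃ s ∈ H0 L, s ≠ 0 := by
    have : Nontrivial (H0 L) := Module.nontrivial_of_finrank_pos (R := ℂ) (by omega)
    obtain ⟨s, hs⟩ := exists_ne (0 : H0 L)
    exact ⟨s, s.2, fun h => hs (Subtype.ext h)⟩
  obtain ⟨s₁, hs₁, hs₁n⟩ : ∃ s ∈ H0 L, s ∉ Submodule.span ℂ {s₀} := by
    by_contra hc
    push Not at hc
    have hle : H0 L ≤ Submodule.span ℂ {s₀} := hc
    have h3 := Submodule.finrank_mono hle
    have h4 := finrank_span_singleton (K := ℂ) hs₀0
    omega
  have hs₁0 : s₁ ≠ 0 := by
    rintro rfl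
    exact hs₁n (zero_mem _)
  set t := s₁ / s₀ with ht'
  have ht : Transcendental ℂ t := by
    by_contra h
    obtain ⟨c, hc⟩ := exists_const h
    apply hs₁n
    rw [Submodule.mem_span_singleton]
    refine ⟨c, ?_⟩
    rw [Algebra.smul_def, ← hc, ht', div_mul_cancel₀ _ hs₀0]
  set F := IntermediateField.adjoin ℂ (ratios L s₀) with hF
  have hratio : ∀ s ∈ H0 L, ∀ s' ∈ H0 L, s' ≠ 0 → s / s' ∈ F := by
    intro s hs s' hs' h0
    have e1 : s / s' = (s / s₀) / (s' / s₀) := by
      field_simp
    rw [e1]
    exact div_mem (IntermediateField.subset_adjoin ℂ _ ⟨s, hs, rfl⟩)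
      (IntermediateField.subset_adjoin ℂ _ ⟨s', hs', rfl⟩)
  have htF : t ∈ F := hratio s₁ hs₁ s₀ hs₀ hs₀0
  -- the sections separate points and tangent vectors, so `F = K`
  have hFtop : F = ⊤ := by
    apply eq_top_of_separated hK (fg_ratios hK hg L s₀) ht htF
    · intro v
      by_contra hno
      push Not at hno
      have hle : H0 (lsub L v) ≤ H0 (lsub (lsub L v) v) := by
        intro s hs w
        rcases eq_or_ne w v with rfl | hw
        · have h3 : w.val s < w.val (L.frame w : K) := by
            have := hs w
            rwa [mem_lsub_self] at this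
          obtain ⟨s', hs', he⟩ := hgen w
          have hs'0 : s' ≠ 0 := by
            rintro rfl
            rw [map_zero] at he
            exact (frame_pos L w).ne he
          have hsL : s ∈ H0 L := by
            intro u
            rcases eq_or_ne u w with rfl | hu
            · exact h3.le
            · have := hs u
              rwa [mem_lsub_ne L hu] at this
          rcases eq_or_ne s 0 with rfl | hs0
          · exact lstalk_zero
          have h4 := hratio s hsL s' hs' hs'0
          -- the order of `s / s'` is at least two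
          have h5 : w.val (s / s') < 1 := by
            rw [map_div₀, he, div_lt_one₀ (frame_pos L w)]
            exact h3
          have h6 : w.val (s / s') ≠ exp (-1) := hno _ h4
          have h7 : w.val (s / s') < w.val (unif w) := by
            have h8 := (val_lt_one_iff w (s / s')).1 h5
            refine lt_of_le_of_ne h8 ?_
            rw [val_unif]
            exact h6
          rw [mem_lsub_self]
          have h9 : w.val ((lsub L w).frame w : K) = w.val (L.frame w : K) * w.val (unif w) := by
            change w.val (((L.frame w) * ((lpt w).frame w)⁻¹ : Kˣ) : K) = _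
            rw [Units.val_mul, Units.val_inv_eq_inv_val, lpt_frame_self, inv_inv, map_mul]
          rw [h9]
          have h10 : w.val s = w.val (L.frame w : K) * w.val (s / s') := by
            rw [map_div₀, he, mul_div_cancel₀ _ (frame_pos L w).ne']
          rw [h10]
          exact mul_lt_mul_of_pos_left h7 (frame_pos L w)
        · rw [mem_lsub_ne _ hw]
          exact hs w
      have h3 := H0_finite hK hg (lsub (lsub L v) v)
      have h4 := Submodule.finrank_mono hle
      have h5 := hcon v v
      have h6 := h0_lsub hK hg L v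
      omega
    · intro v w hvw
      by_contra hne
      have hle : H0 (lsub L v) ≤ H0 (lsub (lsub L v) w) := by
        intro s hs u
        rcases eq_or_ne u w with rfl | hu
        · rw [mem_lsub_self]
          have h3 : v.val s < v.val (L.frame v : K) := by
            have := hs v
            rwa [mem_lsub_self] at this
          have hsL : s ∈ H0 L := by
            intro u
            rcases eq_or_ne u v with rfl | hu
            · exact h3.le
            · have := hs u
              rwa [mem_lsub_ne L hu] at this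
          obtain ⟨s', hs', he⟩ := hgen v
          have hs'0 : s' ≠ 0 := by
            rintro rfl
            rw [map_zero] at he
            exact (frame_pos L v).ne he
          have h4 := hratio s hsL s' hs' hs'0
          have h5 : v.val (s / s') < 1 := by
            rw [map_div₀, he, div_lt_one₀ (frame_pos L v)]
            exact h3
          rw [hvw _ h4, map_div₀, div_lt_one₀ (zero_lt_iff.2 (u.val_ne_zero hs'0))] at h5
          have h6 : u.val ((lsub L v).frame u : K) = u.val (L.frame u : K) := by
            change u.val (((L.frame u) * ((lpt v).frame u)⁻¹ : Kˣ) : K) = _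
            rw [lpt_frame_ne (Ne.symm hne), inv_one, mul_one]
          rw [h6]
          exact h5.trans_le (hs' u)
        · rw [mem_lsub_ne _ hu]
          exact hs u
      have h3 := H0_finite hK hg (lsub (lsub L v) w)
      have h4 := Submodule.finrank_mono hle
      have h5 := hcon v w
      have h6 := h0_lsub hK hg L v
      omega
  -- a primitive element among the ratios
  have hfd := hK.finiteDimensional ht
  have hfinI : Finite (IntermediateField ℂ⟮t⟯ K) :=
    Field.finite_intermediateField_of_exists_primitive_element ℂ⟮t⟯ K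
      (Field.exists_primitive_element ℂ⟮t⟯ K)
  have hfinI' := Fintype.ofFinite (IntermediateField ℂ⟮t⟯ K)
  obtain ⟨s, hs, hsgen⟩ : ∃ s ∈ H0 L, IntermediateField.adjoin ℂ⟮t⟯ {s / s₀} = ⊤ := by
    by_contra hno
    push Not at hno
    let W : IntermediateField ℂ⟮t⟯ K → Submodule ℂ (H0 L) := fun E =>
      { carrier := {s | (s : K) / s₀ ∈ E}
        add_mem' := by
          intro a b ha hb
          change ((a : K) + b) / s₀ ∈ E
          rw [add_div]
          exact add_mem ha hb
        zero_mem' := by
          change ((0 : K)) / s₀ ∈ E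
          rw [zero_div]
          exact zero_mem _
        smul_mem' := by
          intro c a ha
          change (c • (a : K)) / s₀ ∈ E
          have : c • (a : K) / s₀ = algebraMap ℂ⟮t⟯ K (algebraMap ℂ ℂ⟮t⟯ c) * ((a : K) / s₀) := by
            rw [Algebra.smul_def, mul_div_assoc]
            rfl
          rw [this]
          exact mul_mem (E.algebraMap_mem _) ha }
    have hcov : ⋃ p ∈ (Finset.univ.filter fun E : IntermediateField ℂ⟮t⟯ K => E ≠ ⊤).image W,
        (p : Set (H0 L)) = Set.univ := by
      rw [Set.eq_univ_iff_forall]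
      intro s
      rw [Set.mem_iUnion₂]
      refine ⟨W (IntermediateField.adjoin ℂ⟮t⟯ {(s : K) / s₀}), ?_, ?_⟩
      · rw [Finset.mem_image]
        exact ⟨_, Finset.mem_filter.2 ⟨Finset.mem_univ _, hno s s.2⟩, rfl⟩
      · exact IntermediateField.mem_adjoin_simple_self _ _
    have htop := Subspace.top_mem_of_biUnion_eq_univ hcov
    rw [Finset.mem_image] at htop
    obtain ⟨E, hE, hWE⟩ := htop
    rw [Finset.mem_filter] at hE
    apply hE.2
    rw [_root_.eq_top_iff]
    intro z _
    have hz : z ∈ F := by rw [hFtop]; trivial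
    have hle : F ≤ E.restrictScalars ℂ := by
      rw [hF, IntermediateField.adjoin_le_iff]
      rintro z ⟨s, hs, rfl⟩
      have h3 : (⟨s, hs⟩ : H0 L) ∈ W E := by rw [hWE]; trivial
      exact h3
    exact hle hz
  obtain ⟨s', hs', hs'0, hsgen'⟩ : ∃ s' ∈ H0 L, s' ≠ 0 ∧
      IntermediateField.adjoin ℂ⟮t⟯ {s' / s₀} = ⊤ := by
    rcases eq_or_ne s 0 with rfl | hs0
    · refine ⟨s₀, hs₀, hs₀0, ?_⟩
      rw [← hsgen, zero_div, div_self hs₀0]
      have e1 : IntermediateField.adjoin ℂ⟮t⟯ {(0 : K)} = ⊥ := by
        rw [IntermediateField.adjoin_simple_eq_bot_iff]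
        exact zero_mem _
      have e2 : IntermediateField.adjoin ℂ⟮t⟯ {(1 : K)} = ⊥ := by
        rw [IntermediateField.adjoin_simple_eq_bot_iff]
        exact one_mem _
      rw [e1, e2]
    · exact ⟨s, hs, hs0, hsgen⟩
  have h3 := genus_le_of_gen hK hg ht (div_ne_zero hs'0 hs₀0) hsgen'
  have h4 := degP_div_le hK hs₀ hs₁ hs₀0 hs₁0
  have h5 := degP_div_le hK hs₀ hs' hs₀0 hs'0
  have h6 : 1 ≤ degP t := by
    rw [← degZ_eq_degP hK, degZ_eq hK ht]
    have : 0 < Module.finrank ℂ⟮t⟯ K := Module.finrank_pos
    exact_mod_cast this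
  have h7 : 0 ≤ degP (s' / s₀) := finsum_nonneg fun v => le_max_right _ _
  have h8 : (degP t - 1) * (degP (s' / s₀) - 1) ≤ (L.degree - 1) ^ 2 := by
    rcases h7.eq_or_lt with h | h
    · rw [← h]
      nlinarith [sq_nonneg (L.degree - 1)]
    · nlinarith
  omega

end Pool.Agent.TH168.BN
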