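import Pool.Agent.TH168.BN.Restrict

/-!
# The genus of a curve whose function field is generated by two functions
-/

set_option autoImplicit false
set_option linter.unusedSectionVars false

open scoped WithZero Matrix
open WithZero IntermediateField Algebra
open Pool.Agent.Helper395.CS hiding genus
open Pool.Agent.Helper395.BC
open Pool.Agent.W518.SMR (lpole lpole_val two_le_h0_lpole)
open Pool.Agent.W518.PC (lpow)

namespace Pool.Agent.TH168.BN

variable {K : Type} [Field K] [Algebra ℂ K]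

theorem linearIndependent_pow_t {t : K} (ht : Transcendental ℂ t) :
    LinearIndependent ℂ (fun i : ℕ => t ^ i) := by
  have h1 := (Polynomial.basisMonomials ℂ).linearIndependent.map'
    (Polynomial.aeval t : Polynomial ℂ →ₐ[ℂ] K).toLinearMap (by
      rw [LinearMap.ker_eq_bot]
      exact transcendental_iff_injective.1 ht)
  have e : (fun i : ℕ => t ^ i) = (Polynomial.aeval t : Polynomial ℂ →ₐ[ℂ] K).toLinearMap ∘
      (Polynomial.basisMonomials ℂ) := by
    funext i
    simp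
  rw [e]
  exact h1

theorem linearIndependent_tz (hK : IsCurve K) {t θ : K} (ht : Transcendental ℂ t)
    (hgen : IntermediateField.adjoin ℂ⟮t⟯ {θ} = ⊤) :
    LinearIndependent ℂ (fun p : ℕ × Fin (Module.finrank ℂ⟮t⟯ K) => t ^ p.1 * θ ^ (p.2 : ℕ)) := by
  have hfin := hK.finiteDimensional ht
  have h1 : LinearIndependent ℂ (fun i : ℕ => (AdjoinSimple.gen ℂ t) ^ i) := by
    apply LinearIndependent.of_comp (IsScalarTower.toAlgHom ℂ ℂ⟮t⟯ K).toLinearMap
    have e : (IsScalarTower.toAlgHom ℂ ℂ⟮t⟯ K).toLinearMap ∘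
        (fun i : ℕ => (AdjoinSimple.gen ℂ t) ^ i) = fun i => t ^ i := by
      funext i
      simp
    rw [e]
    exact linearIndependent_pow_t ht
  have h0 : LinearIndependent ℂ⟮t⟯ (fun j : Fin (Module.finrank ℂ⟮t⟯ K) => θ ^ (j : ℕ)) := by
    have h1 := linearIndependent_pow (K := ℂ⟮t⟯) θ
    have h2 : (minpoly ℂ⟮t⟯ θ).natDegree = Module.finrank ℂ⟮t⟯ K := by
      rw [← IntermediateField.adjoin.finrank (Algebra.IsIntegral.isIntegral θ), hgen,
        IntermediateField.finrank_top']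
    rw [h2] at h1
    exact h1
  have h2 := linearIndependent_smul h1 h0
  have e : (fun p : ℕ × Fin (Module.finrank ℂ⟮t⟯ K) => t ^ p.1 * θ ^ (p.2 : ℕ)) =
      fun p : ℕ × Fin (Module.finrank ℂ⟮t⟯ K) => (AdjoinSimple.gen ℂ t) ^ p.1 • θ ^ (p.2 : ℕ) := by
    funext p
    rw [Algebra.smul_def, map_pow]
    rfl
  rw [e]
  exact h2

theorem lpow_nat_val (L : LineBundle K) (N : ℕ) (v : Point K) :
    v.val ((lpow L N).frame v : K) = v.val (L.frame v : K) ^ N := by
  change v.val (((L.frame v) ^ (N : ℤ) : Kˣ) : K) = _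
  rw [zpow_natCast, Units.val_pow_eq_pow_val, map_pow]

theorem h0_large (hK : IsCurve K) (hg : genus K ≠ 0) {L : LineBundle K}
    (h : 2 * (genus K : ℤ) - 2 < L.degree) :
    (Module.finrank ℂ (H0 L) : ℤ) = L.degree + 1 - genus K := by
  have h1 := (rrL hK hg L).2
  have h2 : H0 (lmul (can hK hg) (linv L)) = ⊥ := by
    apply H0_eq_bot hK
    rw [lmul_degree, linv_degree, can_degree hK hg]
    omega
  rw [h2, finrank_bot] at h1
  push_cast at h1
  omega

/-- if the function field is generated by functions of degrees `n` and `m` then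
`g ≤ (n - 1) (m - 1)` -/
theorem genus_le_of_gen (hK : IsCurve K) (hg : genus K ≠ 0) {t θ : K} (ht : Transcendental ℂ t)
    (hθ : θ ≠ 0) (hgen : IntermediateField.adjoin ℂ⟮t⟯ {θ} = ⊤) :
    (genus K : ℤ) ≤ (degP t - 1) * (degP θ - 1) := by
  have hfin := hK.finiteDimensional ht
  have ht0 : t ≠ 0 := ne_zero_of_transcendental ht
  set n := Module.finrank ℂ⟮t⟯ K with hn
  have hn1 : 1 ≤ n := Module.finrank_pos
  have hdt : degP t = n := by
    rw [← degZ_eq_degP hK, degZ_eq hK ht]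
  set A := lpole hK (Units.mk0 t ht0) with hA
  set B := lpole hK (Units.mk0 θ hθ) with hB
  have hAd : A.degree = n := by
    rw [hA, Pool.Agent.W518.EG.lpole_degree]
    exact hdt
  have hBd : B.degree = degP θ := by
    rw [hB, Pool.Agent.W518.EG.lpole_degree]
    rfl
  have hθnn : 0 ≤ degP θ := finsum_nonneg fun v => le_max_right _ _
  -- a large power
  obtain ⟨N, hN⟩ : ∃ N : ℕ, 2 * (genus K : ℤ) < N := ⟨2 * genus K + 1, by push_cast; omega⟩
  set L := lmul (lpow A N) (lpow B (n - 1 : ℕ)) with hL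
  have hdeg : L.degree = N * n + (n - 1 : ℕ) * degP θ := by
    rw [hL, lmul_degree, Pool.Agent.W45.PCG.lpow_degree, Pool.Agent.W45.PCG.lpow_degree, hAd, hBd]
  have hbig : 2 * (genus K : ℤ) - 2 < L.degree := by
    rw [hdeg]
    have h1 : (N : ℤ) * 1 ≤ N * n := mul_le_mul_of_nonneg_left (by exact_mod_cast hn1) (by omega)
    have h2 : 0 ≤ ((n - 1 : ℕ) : ℤ) * degP θ := by positivity
    linarith
  have h0 := h0_large hK hg hbig
  have hfinL := H0_finite hK hg L
  have hmem : ∀ p : Fin (N + 1) × Fin n, t ^ (p.1 : ℕ) * θ ^ (p.2 : ℕ) ∈ H0 L := by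
    intro p v
    change v.val _ ≤ v.val (((lmul (lpow A N) (lpow B (n - 1 : ℕ))).frame v : Kˣ) : K)
    have e1 : v.val (((lmul (lpow A N) (lpow B (n - 1 : ℕ))).frame v : Kˣ) : K) =
        v.val ((lpow A N).frame v : K) * v.val ((lpow B (n - 1 : ℕ)).frame v : K) := by
      change v.val ((((lpow A N).frame v) * ((lpow B (n - 1 : ℕ)).frame v) : Kˣ) : K) = _
      rw [Units.val_mul, map_mul]
    rw [e1, lpow_nat_val, lpow_nat_val, hA, hB, lpole_val, lpole_val, map_mul, map_pow, map_pow]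
    change v.val t ^ (p.1 : ℕ) * v.val θ ^ (p.2 : ℕ) ≤ max 1 (v.val t) ^ N * max 1 (v.val θ) ^ (n - 1)
    refine mul_le_mul' ?_ ?_
    · calc v.val t ^ (p.1 : ℕ) ≤ max 1 (v.val t) ^ (p.1 : ℕ) :=
            pow_le_pow_left' (le_max_right _ _) _
        _ ≤ max 1 (v.val t) ^ N := pow_le_pow_right' (le_max_left _ _) (by omega)
    · calc v.val θ ^ (p.2 : ℕ) ≤ max 1 (v.val θ) ^ (p.2 : ℕ) :=
            pow_le_pow_left' (le_max_right _ _) _
        _ ≤ max 1 (v.val θ) ^ (n - 1) := pow_le_pow_right' (le_max_left _ _) (by omega)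
  have hli : LinearIndependent ℂ (fun p : Fin (N + 1) × Fin n =>
      (⟨t ^ (p.1 : ℕ) * θ ^ (p.2 : ℕ), hmem p⟩ : H0 L)) := by
    apply LinearIndependent.of_comp (H0 L).subtype
    have h1 := (linearIndependent_tz hK ht hgen).comp
      (fun p : Fin (N + 1) × Fin n => ((p.1 : ℕ), p.2)) (by
        rintro ⟨a, b⟩ ⟨c, d⟩ h
        simp only [Prod.mk.injEq] at h
        exact Prod.ext (Fin.ext h.1) h.2)
    exact h1
  have hcard := hli.fintype_card_le_finrank
  rw [Fintype.card_prod, Fintype.card_fin, Fintype.card_fin] at hcard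
  have h3 : ((N + 1 : ℕ) : ℤ) * n ≤ Module.finrank ℂ (H0 L) := by exact_mod_cast hcard
  rw [h0, hdeg] at h3
  rw [hdt]
  have h4 : ((n - 1 : ℕ) : ℤ) = n - 1 := by omega
  rw [h4] at h3
  push_cast at h3
  nlinarith

end Pool.Agent.TH168.BN
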