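import Pool.Agent.Helper395.CS.Diff

/-!
# The hyperelliptic curves `y ^ 2 = x ^ (2 n) + 1`
-/

set_option autoImplicit false
set_option linter.unusedSectionVars false

open scoped WithZero Matrix Polynomial IntermediateField TensorProduct
open WithZero
open Pool.Agent.Helper395.CS

namespace Pool.Agent.TH168.BN

/-- the polynomial `X ^ (2 n) + 1` -/
noncomputable def hp (n : ℕ) : ℂ[X] := Polynomial.X ^ (2 * n) + 1

theorem hp_natDegree (n : ℕ) : (hp n).natDegree = 2 * n := by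
  rw [hp, ← Polynomial.C_1]
  exact Polynomial.natDegree_X_pow_add_C

theorem hp_separable {n : ℕ} (hn : n ≠ 0) : (hp n).Separable := by
  have h : hp n = Polynomial.X ^ (2 * n) - Polynomial.C (-1) := by
    rw [hp, map_neg, sub_neg_eq_add, Polynomial.C_1]
  rw [h]
  refine Polynomial.separable_X_pow_sub_C (-1) ?_ (by norm_num)
  exact_mod_cast (by omega : 2 * n ≠ 0)

/-- `X ^ (2 n) + 1` as a rational function -/
noncomputable def HF (n : ℕ) : RatFunc ℂ := algebraMap ℂ[X] (RatFunc ℂ) (hp n)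

/-- the polynomial `Y ^ 2 - (X ^ (2 n) + 1)` -/
noncomputable def HP (n : ℕ) : (RatFunc ℂ)[X] := Polynomial.X ^ 2 - Polynomial.C (HF n)

theorem HF_not_sq {n : ℕ} (hn : n ≠ 0) (b : RatFunc ℂ) : b ^ 2 ≠ HF n := by
  intro h
  have h1 : IsIntegral ℂ[X] (b ^ 2) := by
    rw [h]
    exact isIntegral_algebraMap
  obtain ⟨p, rfl⟩ := IsIntegrallyClosed.exists_algebraMap_eq_of_isIntegral_pow (R := ℂ[X])
    (K := RatFunc ℂ) (n := 2) (by norm_num) h1
  rw [← map_pow] at h
  have h2 : p ^ 2 = hp n := IsFractionRing.injective ℂ[X] (RatFunc ℂ) h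
  have h3 : IsUnit p := (hp_separable hn).squarefree p (by rw [← h2, pow_two])
  have h4 := Polynomial.natDegree_eq_zero_of_isUnit h3
  have h5 := hp_natDegree n
  rw [← h2, Polynomial.natDegree_pow, h4] at h5
  omega

theorem HP_irreducible {n : ℕ} (hn : n ≠ 0) : Irreducible (HP n) :=
  X_pow_sub_C_irreducible_of_prime Nat.prime_two fun b => HF_not_sq hn b

theorem HP_monic (n : ℕ) : (HP n).Monic := Polynomial.monic_X_pow_sub_C _ (by norm_num)

variable (n : ℕ)

instance HP_fact [NeZero n] : Fact (Irreducible (HP n)) := ⟨HP_irreducible (NeZero.ne n)⟩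

/-- the function field of `y² = x^(2n) + 1` -/
abbrev HK : Type := AdjoinRoot (HP n)

/-- the coordinate function `x` -/
noncomputable def hx : HK n := algebraMap (RatFunc ℂ) (HK n) RatFunc.X

/-- the coordinate function `y` -/
noncomputable def hy : HK n := AdjoinRoot.root (HP n)

theorem aeval_hx (p : ℂ[X]) : Polynomial.aeval (hx n) p =
    algebraMap (RatFunc ℂ) (HK n) (algebraMap ℂ[X] (RatFunc ℂ) p) := by
  have h1 : hx n = algebraMap (RatFunc ℂ) (HK n) (algebraMap ℂ[X] (RatFunc ℂ) Polynomial.X) := by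
    rw [hx, RatFunc.algebraMap_X]
  rw [h1, Polynomial.aeval_algebraMap_apply, Polynomial.aeval_algebraMap_apply,
    Polynomial.aeval_X_left_apply]

theorem hy_sq : (hy n) ^ 2 = Polynomial.aeval (hx n) (hp n) := by
  rw [aeval_hx]
  have h := AdjoinRoot.eval₂_root (HP n)
  rw [HP, Polynomial.eval₂_sub, Polynomial.eval₂_X_pow, Polynomial.eval₂_C, sub_eq_zero] at h
  exact h

instance HK_finite : Module.Finite (RatFunc ℂ) (HK n) := (HP_monic n).finite_adjoinRoot

variable [NeZero n]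

theorem hx_transcendental : Transcendental ℂ (hx n) := by
  rw [transcendental_iff]
  intro p hp'
  rw [aeval_hx] at hp'
  rw [← map_zero (algebraMap (RatFunc ℂ) (HK n))] at hp'
  have h1 := (algebraMap (RatFunc ℂ) (HK n)).injective hp'
  rw [← map_zero (algebraMap ℂ[X] (RatFunc ℂ))] at h1
  exact IsFractionRing.injective ℂ[X] (RatFunc ℂ) h1

theorem HK_isCurve : IsCurve (HK n) where
  fg := by
    rw [IntermediateField.fg_top_iff]
    have h1 : Algebra.EssFiniteType ℂ[X] (RatFunc ℂ) :=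
      Algebra.EssFiniteType.of_isLocalization _ (nonZeroDivisors ℂ[X])
    have h2 : Algebra.EssFiniteType ℂ (RatFunc ℂ) := Algebra.EssFiniteType.comp ℂ ℂ[X] (RatFunc ℂ)
    exact Algebra.EssFiniteType.comp ℂ (RatFunc ℂ) (HK n)
  trdeg := by
    have h1 := trdeg_add_eq ℂ (RatFunc ℂ) (A := HK n)
    have h2 := trdeg_add_eq ℂ ℂ[X] (A := RatFunc ℂ)
    have h3 : Algebra.IsAlgebraic (RatFunc ℂ) (HK n) := Algebra.IsAlgebraic.of_finite _ _
    have h4 : Algebra.IsAlgebraic ℂ[X] (RatFunc ℂ) := IsLocalization.isAlgebraic _ (nonZeroDivisors ℂ[X])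
    rw [trdeg_eq_zero (R := RatFunc ℂ), add_zero] at h1
    rw [trdeg_eq_zero (R := ℂ[X]), add_zero] at h2
    rw [← h1, ← h2, Polynomial.trdeg_of_isDomain]

/-- the hyperelliptic involution, over `ℂ(x)` -/
noncomputable def hι' : HK n →ₐ[RatFunc ℂ] HK n :=
  AdjoinRoot.liftAlgHom (HP n) (Algebra.ofId (RatFunc ℂ) (HK n)) (-(hy n)) (by
    change Polynomial.eval₂ _ _ (Polynomial.X ^ 2 - Polynomial.C (HF n)) = 0
    rw [Polynomial.eval₂_sub, Polynomial.eval₂_X_pow, Polynomial.eval₂_C, neg_sq, hy_sq,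
      aeval_hx, sub_eq_zero]
    rfl)

theorem hι'_y : hι' n (hy n) = -(hy n) :=
  AdjoinRoot.liftAlgHom_root _ _ _ _

theorem hι'_comp : (hι' n).comp (hι' n) = AlgHom.id (RatFunc ℂ) (HK n) := by
  apply AdjoinRoot.algHom_ext
  change hι' n (hι' n (hy n)) = hy n
  rw [hι'_y, map_neg, hι'_y, neg_neg]

/-- the hyperelliptic involution -/
noncomputable def hι : HK n ≃ₐ[ℂ] HK n :=
  (AlgEquiv.ofAlgHom (hι' n) (hι' n) (hι'_comp n) (hι'_comp n)).restrictScalars ℂ

theorem algebraMap_mem (a : RatFunc ℂ) : algebraMap (RatFunc ℂ) (HK n) a ∈ ℂ⟮hx n⟯ := by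
  rw [← RatFunc.num_div_denom a, map_div₀, ← aeval_hx, ← aeval_hx]
  exact div_mem (mem_adj _) (mem_adj _)

theorem span_hyp (z : HK n) : ∃ a ∈ ℂ⟮hx n⟯, ∃ b ∈ ℂ⟮hx n⟯, z = a + b * hy n := by
  obtain ⟨p, rfl⟩ := AdjoinRoot.mk_surjective z
  have h1 := Polynomial.modByMonic_add_div p (HP n)
  have hdeg : (p %ₘ (HP n)).natDegree < 2 := by
    have := Polynomial.natDegree_modByMonic_lt p (HP_monic n) (by
      intro h
      have := congrArg Polynomial.natDegree h
      rw [HP, Polynomial.natDegree_X_pow_sub_C, Polynomial.natDegree_one] at this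
      omega)
    rwa [HP, Polynomial.natDegree_X_pow_sub_C] at this
  obtain ⟨a, b, hab⟩ := Polynomial.exists_eq_X_add_C_of_natDegree_le_one (Nat.lt_succ_iff.1 hdeg)
  refine ⟨_, algebraMap_mem n b, _, algebraMap_mem n a, ?_⟩
  rw [← h1, hab, map_add, map_add, map_mul, map_mul, AdjoinRoot.mk_self, zero_mul, add_zero,
    AdjoinRoot.mk_X, AdjoinRoot.mk_C, AdjoinRoot.mk_C, add_comm]
  rfl

theorem hyp : Hyp (hx n) (hy n) (hp n) (hι n) where
  curve := HK_isCurve n
  trans := hx_transcendental n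
  eq := hy_sq n
  sep := hp_separable (NeZero.ne n)
  span := span_hyp n
  inv_x := by
    change hι' n (algebraMap (RatFunc ℂ) (HK n) RatFunc.X) = _
    rw [AlgHom.commutes]
    rfl
  inv_y := hι'_y n

end Pool.Agent.TH168.BN
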