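import Pool.Agent.TH168.BN.Drop
import Pool.Agent.TH168.BN.HypGenus

/-!
# Brill-Noether loci: definitions, and containments

A smooth projective curve over `ℂ` is given by its function field `K`, and line bundles on it by
local generators, see `Pool/Agent/Helper395/CS/Defs.lean`; `H0 L` is the space of global sections
of `L` and `genus K = dim H¹(C, 𝒪_C)`.
-/

set_option autoImplicit false
set_option linter.unusedSectionVars false

open scoped WithZero Matrix
open WithZero IntermediateField Algebra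
open Pool.Agent.Helper395.CS hiding genus
open Pool.Agent.Helper395.BC
open Pool.Agent.W525.BA (h0_lsub val_lsub_lt ldegree_lt)
open Pool.Agent.W518.SMR (lpole lpole_val two_le_h0_lpole)
open Pool.Agent.W518.PC (lpow)

namespace Pool.Agent.TH168.BN

/-- The curve `C` with function field `K` carries a `g^r_d`: there is a line bundle `L` on `C` of
degree `d` with `h⁰(C, L) ≥ r + 1`. -/
def HasSeries (K : Type) [Field K] [Algebra ℂ K] (r : ℕ) (d : ℤ) : Prop :=
  ∃ L : LineBundle K, L.degree = d ∧ r + 1 ≤ Module.finrank ℂ (H0 L)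

/-- The class of the curve `C` with function field `K` lies in the locus `M^r_{g,d}`: `C` is a
smooth projective curve of genus `g` and carries a `g^r_d`. -/
structure InLocus (g r : ℕ) (d : ℤ) (K : Type) [Field K] [Algebra ℂ K] : Prop where
  curve : IsCurve K
  genus_eq : genus K = g
  series : HasSeries K r d

/-- The Brill-Noether number `ρ(g, r, d) = g - (r + 1)(g - d + r)`. -/
def rho (g r : ℕ) (d : ℤ) : ℤ := g - (r + 1) * (g - d + r)

/-- `M^r_{g,d}` is a Brill-Noether locus: `r ≥ 1`, `ρ(g, r, d) < 0` and it is not empty. -/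
def IsLocus (g r : ℕ) (d : ℤ) : Prop :=
  1 ≤ r ∧ rho g r d < 0 ∧ ∃ (K : Type) (_ : Field K) (_ : Algebra ℂ K), InLocus g r d K

/-- `M^r_{g,d} ⊆ M^s_{g,e}`. -/
def Contained (g r : ℕ) (d : ℤ) (s : ℕ) (e : ℤ) : Prop :=
  ∀ (K : Type) [Field K] [Algebra ℂ K], InLocus g r d K → InLocus g s e K

variable {K : Type} [Field K] [Algebra ℂ K]

theorem HasSeries.succ (hK : IsCurve K) (hg : genus K ≠ 0) {r : ℕ} {d : ℤ}
    (h : HasSeries K r d) : HasSeries K r (d + 1) := by
  obtain ⟨L, hd, hr⟩ := h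
  obtain ⟨v⟩ := point_nonempty hK
  refine ⟨lmul L (lpt v), by rw [lmul_degree, lpt_degree, hd], hr.trans ?_⟩
  have := H0_finite hK hg (lmul L (lpt v))
  exact Submodule.finrank_mono (H0_mono (le_lmul_lpt L v))

theorem HasSeries.add (hK : IsCurve K) (hg : genus K ≠ 0) {r : ℕ} {d : ℤ}
    (h : HasSeries K r d) (k : ℕ) : HasSeries K r (d + k) := by
  induction k with
  | zero => simpa using h
  | succ k ih =>
    have := ih.succ hK hg
    push_cast
    rwa [← add_assoc]

theorem two_sections {L : LineBundle K} [FiniteDimensional ℂ (H0 L)]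
    (h2 : 2 ≤ Module.finrank ℂ (H0 L)) :
    ∃ s₀ ∈ H0 L, ∃ s₁ ∈ H0 L, s₀ ≠ 0 ∧ s₁ ≠ 0 ∧ Transcendental ℂ (s₁ / s₀) := by
  obtain ⟨s₀, hs₀, hs₀0⟩ : ∃ s ∈ H0 L, s ≠ 0 := by
    have : Nontrivial (H0 L) := Module.nontrivial_of_finrank_pos (R := ℂ) (by omega)
    obtain ⟨s, hs⟩ := exists_ne (0 : H0 L)
    exact ⟨s, s.2, fun h => hs (Subtype.ext h)⟩
  obtain ⟨s₁, hs₁, hs₁n⟩ : ∃ s ∈ H0 L, s ∉ Submodule.span ℂ {s₀} := by
    by_contra hc
    push Not at hc
    have hle : H0 L ≤ Submodule.span ℂ {s₀} := hc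
    have h3 := Submodule.finrank_mono hle
    have h4 := finrank_span_singleton (K := ℂ) hs₀0
    omega
  refine ⟨s₀, hs₀, s₁, hs₁, hs₀0, ?_, ?_⟩
  · rintro rfl
    exact hs₁n (zero_mem _)
  · by_contra h
    obtain ⟨c, hc⟩ := exists_const h
    apply hs₁n
    rw [Submodule.mem_span_singleton]
    refine ⟨c, ?_⟩
    rw [Algebra.smul_def, ← hc, div_mul_cancel₀ _ hs₀0]

/-- powers of a pencil -/
theorem HasSeries.pow (hK : IsCurve K) (hg : genus K ≠ 0) {d : ℤ} (h : HasSeries K 1 d) (r : ℕ) :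
    HasSeries K r (r * d) := by
  obtain ⟨A, hd, hr⟩ := h
  have hfin := H0_finite hK hg A
  obtain ⟨s₀, hs₀, s₁, hs₁, h0, h1, ht⟩ := two_sections hr
  refine ⟨lpow A r, by rw [Pool.Agent.W45.PCG.lpow_degree, hd], ?_⟩
  have hfinL := H0_finite hK hg (lpow A r)
  have hmem : ∀ i : Fin (r + 1), s₀ ^ r * (s₁ / s₀) ^ (i : ℕ) ∈ H0 (lpow A r) := by
    intro i v
    change v.val _ ≤ v.val ((lpow A r).frame v : K)
    rw [lpow_nat_val, map_mul, map_pow, map_pow, map_div₀]
    have hi : (i : ℕ) ≤ r := by omega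
    have hp : 0 < v.val s₀ := zero_lt_iff.2 (v.val_ne_zero h0)
    have e1 : v.val s₀ ^ r * (v.val s₁ / v.val s₀) ^ (i : ℕ) =
        v.val s₀ ^ (r - i) * v.val s₁ ^ (i : ℕ) := by
      rw [div_pow, ← mul_div_assoc, div_eq_iff (pow_pos hp _).ne']
      rw [mul_right_comm, ← pow_add, Nat.sub_add_cancel hi]
    rw [e1]
    calc v.val s₀ ^ (r - i) * v.val s₁ ^ (i : ℕ) ≤
          v.val (A.frame v : K) ^ (r - i) * v.val (A.frame v : K) ^ (i : ℕ) :=
          mul_le_mul' (pow_le_pow_left' (hs₀ v) _) (pow_le_pow_left' (hs₁ v) _)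
      _ = v.val (A.frame v : K) ^ r := by rw [← pow_add, Nat.sub_add_cancel hi]
  have hli : LinearIndependent ℂ (fun i : Fin (r + 1) =>
      (⟨s₀ ^ r * (s₁ / s₀) ^ (i : ℕ), hmem i⟩ : H0 (lpow A r))) := by
    apply LinearIndependent.of_comp (H0 (lpow A r)).subtype
    have h2 := (linearIndependent_pow_t ht).comp (fun i : Fin (r + 1) => (i : ℕ)) Fin.val_injective
    have h3 := h2.map' (LinearMap.mulLeft ℂ (s₀ ^ r)) (by
      rw [LinearMap.ker_eq_bot]
      intro x y hxy
      exact mul_left_cancel₀ (pow_ne_zero _ h0) hxy)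
    exact h3
  simpa using hli.fintype_card_le_finrank

/-- on a curve of large genus every `g^{r+1}_d` gives a `g^r_{d-2}` -/
theorem HasSeries.drop (hK : IsCurve K) (hg : genus K ≠ 0) {r : ℕ} {d : ℤ}
    (hbig : (d - 1) ^ 2 < genus K) (h : HasSeries K (r + 1) d) : HasSeries K r (d - 2) := by
  obtain ⟨L, hd, hr⟩ := h
  obtain ⟨v, w, h1⟩ := Pool.Agent.TH168.BN.drop hK hg L (by omega) (by rw [hd]; exact hbig)
  refine ⟨lsub (lsub L v) w, by rw [lsub_degree, lsub_degree, hd]; ring, by omega⟩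

/-- on a curve of large genus every `g^{s+k}_d` gives a `g^s_{d-2k}` -/
theorem HasSeries.drops (hK : IsCurve K) (hg : genus K ≠ 0) (k : ℕ) : ∀ {s : ℕ} {d : ℤ},
    2 * (s + k) ≤ d → 1 ≤ s → (d - 1) ^ 2 < genus K → HasSeries K (s + k) d →
    HasSeries K s (d - 2 * k) := by
  induction k with
  | zero =>
    intro s d _ _ _ h
    simpa using h
  | succ k ih =>
    intro s d h1 hs h2 h
    have h3 : HasSeries K (s + k) (d - 2) := HasSeries.drop hK hg h2 h
    have h4 := ih (s := s) (d := d - 2) (by push_cast at h1; omega) hs (by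
      push_cast at h1
      nlinarith) h3
    have e : d - 2 * ((k + 1 : ℕ) : ℤ) = d - 2 - 2 * (k : ℤ) := by push_cast; ring
    rw [e]
    exact h4

/-- Clifford's theorem: a `g^r_{2r}` comes from a pencil of degree two. -/
theorem HasSeries.clifford (hK : IsCurve K) (hg : genus K ≠ 0) {r : ℕ} (hr : 1 ≤ r)
    (hrg : r + 2 ≤ genus K) (h : HasSeries K r (2 * r)) : HasSeries K 1 2 := by
  obtain ⟨L, hd, hr'⟩ := h
  by_contra hcon
  have hs : SmallH0 K := by
    intro A hA
    by_contra hA2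
    push Not at hA2
    apply hcon
    obtain ⟨k, hk⟩ : ∃ k : ℕ, A.degree + k = 2 := ⟨(2 - A.degree).toNat, by omega⟩
    rw [← hk]
    exact HasSeries.add hK hg ⟨A, rfl, by omega⟩ k
  have h1 := Pool.Agent.W525.BA.degree_ge hK hg hs hr hrg hr'
  rw [hd] at h1
  omega

end Pool.Agent.TH168.BN
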