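import Pool.Agent.W525.Cliff
import Pool.Agent.W518.EG.TRR

/-!
# Restriction of points to a subfield
-/

set_option autoImplicit false
set_option linter.unusedSectionVars false

open scoped WithZero Matrix
open WithZero IntermediateField Algebra
open Pool.Agent.Helper395.CS hiding genus
open Pool.Agent.Helper395.BC
open Pool.Agent.W518.SMR (lpole lpole_val two_le_h0_lpole)
open Pool.Agent.W518.PC (lpow)

namespace Pool.Agent.TH168.BN

variable {K : Type} [Field K] [Algebra ℂ K]

/-- the restriction of a point to a subfield which contains a local parameter -/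
noncomputable def restr (F : IntermediateField ℂ K) (v : Point K)
    (h : ∃ x ∈ F, v.val x = exp (-1)) : Point F where
  val := v.val.comap (algebraMap F K)
  surj := by
    intro z
    obtain ⟨x, hxF, hx⟩ := h
    rcases eq_or_ne z 0 with rfl | hz
    · exact ⟨0, map_zero _⟩
    · refine ⟨(⟨x, hxF⟩ : F) ^ (-(log z)), ?_⟩
      rw [map_zpow₀]
      change v.val x ^ _ = z
      rw [hx, ← exp_zsmul, smul_eq_mul, neg_mul_neg, mul_one, exp_log hz]
  const := fun c hc => v.const c hc

theorem restr_val (F : IntermediateField ℂ K) (v : Point K)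
    (h : ∃ x ∈ F, v.val x = exp (-1)) (z : F) : (restr F v h).val z = v.val (z : K) := rfl

theorem restr_ord (F : IntermediateField ℂ K) (v : Point K)
    (h : ∃ x ∈ F, v.val x = exp (-1)) (z : F) : (restr F v h).ord z = v.ord (z : K) := rfl

/-- a subfield which is generated by a finite set and contains a transcendental element is the
function field of a curve -/
theorem isCurve_sub (hK : IsCurve K) {F : IntermediateField ℂ K} (hF : F.FG) {t : K}
    (ht : Transcendental ℂ t) (htF : t ∈ F) : IsCurve F where
  fg := by
    rw [IntermediateField.fg_top_iff]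
    exact (IntermediateField.essFiniteType_iff).2 hF
  trdeg := by
    have h1 := trdeg_add_eq ℂ F (A := K)
    have hfin := hK.finiteDimensional ht
    have hle : ℂ⟮t⟯ ≤ F := by
      rw [IntermediateField.adjoin_simple_le_iff]
      exact htF
    have halg : Algebra.IsAlgebraic F K := by
      constructor
      intro z
      have h2 : IsIntegral ℂ⟮t⟯ z := Algebra.IsIntegral.isIntegral z
      obtain ⟨p, hp, hpz⟩ := h2.isAlgebraic
      refine ⟨p.map (IntermediateField.inclusion hle).toRingHom, ?_, ?_⟩
      · exact (Polynomial.map_ne_zero_iff (IntermediateField.inclusion hle).toRingHom.injective).2 hp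
      · rw [Polynomial.aeval_def, Polynomial.eval₂_map]
        exact hpz
    rw [trdeg_eq_zero (R := F), add_zero, hK.trdeg] at h1
    exact h1

/-- the degree of a function of a subfield -/
theorem finrank_tower {F : IntermediateField ℂ K} {t : K} (htF : t ∈ F) :
    Module.finrank ℂ⟮(⟨t, htF⟩ : F)⟯ F * Module.finrank F K = Module.finrank ℂ⟮t⟯ K := by
  have hle : ℂ⟮t⟯ ≤ F := by
    rw [IntermediateField.adjoin_simple_le_iff]
    exact htF
  rw [← IntermediateField.relfinrank_mul_finrank_top hle]
  congr 1
  rw [← IntermediateField.relfinrank_top_right,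
    ← IntermediateField.relfinrank_map_map ℂ⟮(⟨t, htF⟩ : F)⟯ ⊤ F.val]
  congr 1
  · rw [IntermediateField.adjoin_map, Set.image_singleton]
    rfl
  · ext z
    constructor
    · rintro ⟨w, -, rfl⟩
      exact w.2
    · intro hz
      exact ⟨⟨z, hz⟩, trivial, rfl⟩

/-- If all points contain a local parameter from the subfield `F` and are separated by `F`, the
subfield is everything. -/
theorem eq_top_of_separated (hK : IsCurve K) {F : IntermediateField ℂ K} (hF : F.FG) {t : K}
    (ht : Transcendental ℂ t) (htF : t ∈ F) (h1 : ∀ v : Point K, ∃ x ∈ F, v.val x = exp (-1))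
    (h2 : ∀ v w : Point K, (∀ x ∈ F, v.val x = w.val x) → v = w) : F = ⊤ := by
  classical
  have hCF := isCurve_sub hK hF ht htF
  have htF' : Transcendental ℂ (⟨t, htF⟩ : F) := by
    intro h
    apply ht
    exact (isAlgebraic_algebraMap_iff (algebraMap F K).injective).2 h |> fun h => by simpa using h
  obtain ⟨S, hS, hSsum⟩ := zero_count_aux hK ht
  obtain ⟨T, hT, hTsum⟩ := zero_count_aux hCF htF'
  have hinj : Function.Injective fun v : Point K => restr F v (h1 v) := by
    intro v w hvw
    apply h2
    intro x hx
    have h3 : (restr F v (h1 v)).val ⟨x, hx⟩ = (restr F w (h1 w)).val ⟨x, hx⟩ := by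
      have : restr F v (h1 v) = restr F w (h1 w) := hvw
      rw [this]
    exact h3
  have hle : ∑ v ∈ S, v.ord t ≤ ∑ w ∈ T, w.ord (⟨t, htF⟩ : F) := by
    have h3 : ∑ v ∈ S, v.ord t =
        ∑ w ∈ S.image (fun v : Point K => restr F v (h1 v)), w.ord (⟨t, htF⟩ : F) := by
      rw [Finset.sum_image fun a _ b _ h => hinj h]
      rfl
    rw [h3]
    refine Finset.sum_le_sum_of_subset_of_nonneg ?_ ?_
    · intro w hw
      rw [Finset.mem_image] at hw
      obtain ⟨v, hv, rfl⟩ := hw
      rw [hT]
      exact (hS v).1 hv
    · intro w hw _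
      rw [hT, w.val_lt_one_iff (fun h => ht (by
        have : t = 0 := congrArg Subtype.val h
        rw [this]; exact isAlgebraic_zero))] at hw
      omega
  rw [hSsum, hTsum, ← finrank_tower htF] at hle
  have hfin := hCF.finiteDimensional htF'
  have hpos : 0 < Module.finrank ℂ⟮(⟨t, htF⟩ : F)⟯ F := Module.finrank_pos
  have h4 : Module.finrank F K ≤ 1 := by
    by_contra hcon
    push Not at hcon
    have h5 : Module.finrank ℂ⟮(⟨t, htF⟩ : F)⟯ F * Module.finrank F K ≤
        Module.finrank ℂ⟮(⟨t, htF⟩ : F)⟯ F := by exact_mod_cast hle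
    nlinarith
  have hfinK : FiniteDimensional F K := by
    have hle : ℂ⟮t⟯ ≤ F := by
      rw [IntermediateField.adjoin_simple_le_iff]
      exact htF
    have := hK.finiteDimensional ht
    letI : Algebra ℂ⟮t⟯ F := (IntermediateField.inclusion hle).toRingHom.toAlgebra
    haveI : IsScalarTower ℂ⟮t⟯ F K := IsScalarTower.of_algebraMap_eq fun _ => rfl
    exact Module.Finite.right ℂ⟮t⟯ F K
  have h6 : 0 < Module.finrank F K := Module.finrank_pos
  have h7 : Module.finrank F K = 1 := by omega
  rw [← IntermediateField.finrank_eq_one_iff_eq_top]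
  exact h7

end Pool.Agent.TH168.BN
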